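import Pool.Agent.helper9.BN.BubPar

set_option autoImplicit false
open MeasureTheory Filter Topology Set Metric
open scoped ContDiff Gradient RealInnerProductSpace ENNReal

noncomputable section
namespace Pool.Agent.helper13.BN
variable {N : ℕ}

theorem bf_Dn_pos {η : ℝ} (F : Fam N η) (n : ℕ) : 0 < F.Dn n :=
  Real.sqrt_pos.2 (div_pos (F.eps_pos n) F.hgam)

/-- the constant in `siz` -/
def bfk {η : ℝ} (F : Fam N η) (n : ℕ) : ℝ :=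
  if N = 5 then (F.gam / F.lamb) ^ 3 * F.Dn n ^ 9 else F.gam * F.Dn n ^ (N + 1)

theorem bfk_pos {η : ℝ} (F : Fam N η) (n : ℕ) : 0 < bfk F n := by
  have h1 := bf_Dn_pos F n
  have h2 := F.hgam
  have h3 := F.hlamb
  unfold bfk
  split_ifs <;> positivity

theorem bf_siz_eq {η : ℝ} (F : Fam N η) (n : ℕ) (y : ℝ) :
    F.siz n y = (bfk F n * y) ^ (1 / cc N) := rfl

theorem bfΨ_eq {η : ℝ} (F : Fam N η) (n : ℕ) (q : ℝ × ℝ) :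
    bfΨ N (F.Dn n) (bfk F n) q = (F.dep n q.1, F.siz n q.2) := rfl

theorem bf_scl_pos {η : ℝ} (F : Fam N η) (n : ℕ) : 0 < F.scl n := by
  have h1 := bf_Dn_pos F n
  have h2 := F.hgam
  have h3 := F.hlamb
  unfold Fam.scl
  split_ifs <;> positivity

theorem bf_siz_cc (hN : 3 ≤ N) {η : ℝ} (F : Fam N η) (n : ℕ) {y : ℝ} (hy : 0 < y) :
    F.siz n y ^ cc N = bfk F n * y := by
  have hc := bf_cc_pos hN
  rw [bf_siz_eq, ← Real.rpow_mul (mul_pos (bfk_pos F n) hy).le, one_div, inv_mul_cancel₀ hc.ne',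
    Real.rpow_one]

theorem bf_bet_cases (N : ℕ) : bet N = 1 ∨ bet N = -1 := by
  unfold bet; split_ifs
  · right; rfl
  · left; rfl

theorem bf_bet_neg (N : ℕ) : -bet N = 1 ∨ -bet N = -1 := by
  rcases bf_bet_cases N with h | h <;> rw [h] <;> norm_num

theorem bf_ered (hN : N ≠ 5) (a b b' x y : ℝ) : ered N a b x y = ered N a b' x y := by
  unfold ered; rw [if_neg hN, if_neg hN]

/-- the rectangle with the constants of the reduced energy -/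
theorem bf_rect (hN : 3 ≤ N) (hN5 : N ≤ 5) :
    ∃ x1 x0 x2 y1 y0 y2 m : ℝ, 0 < x1 ∧ x1 < x0 ∧ x0 < x2 ∧ x2 < 1 ∧ 0 < y1 ∧ y1 < y0 ∧ y0 < y2 ∧
      0 < m ∧ m ≤ -bet N * ered N (aN N) (bN N) x0 y0 ∧
      ∀ x y : ℝ, (x, y) ∈ frontier (Icc x1 x2 ×ˢ Icc y1 y2) →
        -bet N * ered N (aN N) (bN N) x y ≤ m / 2 := by
  by_cases h5 : N = 5
  · exact rect hN hN5 (aN_pos hN) (bN_pos (by omega))
  · obtain ⟨x1, x0, x2, y1, y0, y2, m, h1, h2, h3, h4, h6, h7, h8, h9, h10, h11⟩ :=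
      rect hN hN5 (aN_pos hN) one_pos
    refine ⟨x1, x0, x2, y1, y0, y2, m, h1, h2, h3, h4, h6, h7, h8, h9, ?_, ?_⟩
    · rw [bf_ered h5 _ (bN N) 1]; exact h10
    · intro x y hxy
      rw [bf_ered h5 _ (bN N) 1]; exact h11 x y hxy


/-- the reduction for one `n` -/
theorem bf_step (hN : 3 ≤ N) (hN5 : N ≤ 5) {η : ℝ} (F : Fam N η) (n : ℕ)
    {x1 x0 x2 y1 y0 y2 m CE CP CS CR mL dS dL dR R₀ ML M δ C : ℝ}
    (hx1 : 0 < x1) (hx10 : x1 < x0) (hx02 : x0 < x2) (hx2 : x2 < 1) (hy1 : 0 < y1) (hy10 : y1 < y0)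
    (hy02 : y0 < y2) (hm : 0 < m) (hm0 : m ≤ -bet N * ered N (aN N) (bN N) x0 y0)
    (hmf : ∀ x y : ℝ, (x, y) ∈ frontier (Icc x1 x2 ×ˢ Icc y1 y2) →
        -bet N * ered N (aN N) (bN N) x y ≤ m / 2)
    (hCEη : CE * η ≤ m / 16)
    (hpath : ∀ (e : E N), ‖e‖ = 1 → ∀ D k : ℝ, 0 < D → 0 < k →
      ∃ (W' : ℝ × ℝ → (ℝ × ℝ) →L[ℝ] XS e F.ρ) (Z' : ℝ × ℝ → Fin 2 → (ℝ × ℝ) →L[ℝ] XS e F.ρ)
        (W : ℝ × ℝ → XS e F.ρ) (Z : ℝ × ℝ → Fin 2 → XS e F.ρ),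
        ContinuousOn W' {q | 0 < q.2} ∧ (∀ a, ContinuousOn (fun q => Z' q a) {q | 0 < q.2}) ∧
        ∀ q : ℝ × ℝ, 0 < q.2 →
          (W q : LV N) = WW e F.ρ (bfΨ N D k q).1 (bfΨ N D k q).2 ∧
          (Z q 0 : LV N) = ZX e F.ρ (bfΨ N D k q).1 (bfΨ N D k q).2 ∧
          (Z q 1 : LV N) = ZM e F.ρ (bfΨ N D k q).1 (bfΨ N D k q).2 ∧
          HasFDerivAt W (W' q) q ∧ (∀ a, HasFDerivAt (fun q => Z q a) (Z' q a) q) ∧
          W' q (1, 0) = (-(D / (bfΨ N D k q).2)) • Z q 0 ∧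
          W' q (0, 1) = (1 / (cc N * q.2)) • Z q 1 ∧
          ∀ a, ‖Z' q a (1, 0)‖ ≤ CP * (D / (bfΨ N D k q).2) ∧
            ‖Z' q a (0, 1)‖ ≤ CP * (1 / (cc N * q.2)))
    (hCS : 0 < CS)
    (hsmall : ∀ (d μ : ℝ), 0 < d → d < dS → 0 < μ → μ ≤ d ^ 2 →
      ‖WW F.e F.ρ d μ‖ ≤ CS ∧ ‖ZM F.e F.ρ d μ‖ ≤ CS ∧ ‖ZX F.e F.ρ d μ‖ ≤ CS ∧
      CS⁻¹ ≤ ‖ZM F.e F.ρ d μ‖ ∧ CS⁻¹ ≤ ‖ZX F.e F.ρ d μ‖ ∧
      |⟪ZM F.e F.ρ d μ, ZX F.e F.ρ d μ⟫| ≤ CS * μ ^ ((1 : ℝ) / 4))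
    (hlin : ∀ (d μ β : ℝ), 0 < d →
      d < dL → 0 < μ → μ ≤ d ^ 2 → (β = 1 ∨ β = -1) →
      ∀ (u W Z0 Z1 : XS F.e F.ρ), (W : LV N) = WW F.e F.ρ d μ → (Z0 : LV N) = ZX F.e F.ρ d μ →
        (Z1 : LV N) = ZM F.e F.ρ d μ → (u : LV N) = F.v n + β • WW F.e F.ρ d μ →
        ∀ (x : XS F.e F.ρ) (c0 c1 : ℝ), mL * (‖x‖ + |c0| + |c1|) ≤
          ‖Hess F.e F.ρ (F.lam n) u x - c0 • Z0 - c1 • Z1‖ + |⟪Z0, x⟫| + |⟪Z1, x⟫|)
    (hCR : 0 < CR)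
    (hres : ∀ (d μ β : ℝ), 0 < d →
      d < dR → 0 < μ → μ ≤ d ^ 2 → (β = 1 ∨ β = -1) →
      ∀ u : XS F.e F.ρ, (u : LV N) = F.v n + β • WW F.e F.ρ d μ →
        ‖gg F.e F.ρ (F.lam n) u‖ ≤ CR * μ ^ cc N)
    (hvR : ‖F.v n‖ + CS ≤ R₀ / 2)
    (hLip : ∀ (lam : ℝ) (u u' : XS F.e F.ρ), ‖u‖ ≤ R₀ → ‖u'‖ ≤ R₀ →
      ‖Hess F.e F.ρ lam u - Hess F.e F.ρ lam u'‖ ≤ ML * ‖u - u'‖)
    (hM1 : ML ≤ M) (hM2 : CP ≤ M) (hM3 : CS ≤ M)
    (hred : ∀ (X : Type) [NormedAddCommGroup X] [InnerProductSpace ℝ X] [CompleteSpace X]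
        (J : X → ℝ) (g : X → X) (A : X → X →L[ℝ] X)
        (Q : Set (ℝ × ℝ)) (U : ℝ × ℝ → X) (U' : ℝ × ℝ → (ℝ × ℝ) →L[ℝ] X)
        (Z : ℝ × ℝ → Fin 2 → X) (Z' : ℝ × ℝ → Fin 2 → (ℝ × ℝ) →L[ℝ] X) (κ : ℝ × ℝ → Fin 2 → ℝ)
        (d s : ℝ) (P : Set (ℝ × ℝ)) (q₀ : ℝ × ℝ),
        (∀ u h : X, HasDerivAt (fun t : ℝ => J (u + t • h)) ⟪g u, h⟫ 0) →
        (∀ u, HasFDerivAt g (A u) u) → (∀ u x y, ⟪A u x, y⟫ = ⟪x, A u y⟫) →
        (∀ u u', ‖u‖ ≤ R₀ → ‖u'‖ ≤ R₀ → ‖A u - A u'‖ ≤ M * ‖u - u'‖) →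
        IsOpen Q → P ⊆ Q → IsCompact P →
        (∀ q ∈ Q, HasFDerivAt U (U' q) q) → ContinuousOn U' Q →
        (∀ q ∈ Q, ∀ a, HasFDerivAt (fun q => Z q a) (Z' q a) q) →
        (∀ a, ContinuousOn (fun q => Z' q a) Q) →
        (∀ q ∈ Q, U' q (1, 0) = κ q 0 • Z q 0 ∧ U' q (0, 1) = κ q 1 • Z q 1) →
        (∀ q ∈ Q, ∀ a, κ q a ≠ 0) →
        (∀ q ∈ Q, ∀ b, ‖Z' q b (1, 0)‖ ≤ M * |κ q 0| ∧ ‖Z' q b (0, 1)‖ ≤ M * |κ q 1|) →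
        (∀ q ∈ Q, ∀ a, ‖Z q a‖ ≤ M) → (∀ q ∈ Q, ‖U q‖ ≤ R₀ / 2) →
        (∀ q ∈ Q, ∀ c : Fin 2 → ℝ, min mL (CS⁻¹ / 2) * ∑ a, |c a| ≤ ‖∑ a, c a • Z q a‖) →
        (∀ q ∈ Q, ∀ (x : X) (c : Fin 2 → ℝ), min mL (CS⁻¹ / 2) * (‖x‖ + ∑ a, |c a|)
          ≤ ‖A (U q) x - ∑ a, c a • Z q a‖ + ∑ a, |⟪Z q a, x⟫|) →
        d ≤ δ → (∀ q ∈ Q, ‖g (U q)‖ ≤ d) →
        (s = 1 ∨ s = -1) → q₀ ∈ interior P →
        (∀ q ∈ frontier P, s * J (U q) + 2 * C * d ^ 2 < s * J (U q₀)) →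
        ∃ q ∈ interior P, ∃ φ : X, ‖φ‖ ≤ C * d ∧ g (U q + φ) = 0)
    (hsd : ∀ x ∈ Icc (x1 / 2) 2, ∀ y ∈ Icc (y1 / 2) (2 * y2),
      0 < F.dep n x ∧ F.dep n x < min (min dS dL) dR ∧ 0 < F.siz n y ∧
        CS * F.siz n y ^ ((1 : ℝ) / 4) ≤ (CS⁻¹) ^ 2 / 2 ∧ F.siz n y ≤ F.dep n x ^ 2)
    (hE : ∀ x ∈ Icc x1 x2, ∀ y ∈ Icc y1 y2,
      |JJ F.ρ (F.lam n) (F.v n + bet N • WW F.e F.ρ (F.dep n x) (F.siz n y))
        - JJ F.ρ (F.lam n) (F.v n) - sN N / N - F.scl n * ered N (aN N) (bN N) x y|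
        ≤ F.scl n * (CE * η + m / 16))
    (hδ : CR * F.siz n (2 * y2) ^ cc N ≤ δ)
    (hsq : 2 * C * (CR * F.siz n (2 * y2) ^ cc N) ^ 2 ≤ F.scl n * (m / 8)) :
    ∃ q : ℝ × ℝ, q ∈ Icc x1 x2 ×ˢ Icc y1 y2 ∧ ∃ φ : XS F.e F.ρ,
      ‖φ‖ ≤ C * (CR * F.siz n (2 * y2) ^ cc N) ∧
      Weak (ann N F.ρ) (F.v n + bet N • WW F.e F.ρ (F.dep n q.1) (F.siz n q.2) + (φ : LV N))
        (fun x => F.lam n * fn (F.v n + bet N • WW F.e F.ρ (F.dep n q.1) (F.siz n q.2) + (φ : LV N)) x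
          + nl N (fn (F.v n + bet N • WW F.e F.ρ (F.dep n q.1) (F.siz n q.2) + (φ : LV N)) x)) := by
  haveI := bf_complete F.e F.ρ
  have hc := bf_cc_pos hN
  obtain ⟨W', Z', W, Z, cW, cZ, hq⟩ := hpath F.e F.he (F.Dn n) (bfk F n) (bf_Dn_pos F n) (bfk_pos F n)
  set Q : Set (ℝ × ℝ) := Ioo (x1 / 2) 2 ×ˢ Ioo (y1 / 2) (2 * y2) with hQ
  set P : Set (ℝ × ℝ) := Icc x1 x2 ×ˢ Icc y1 y2 with hP
  set vn : XS F.e F.ρ := ⟨F.v n, F.v_mem n⟩ with hvn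
  have hPQ : P ⊆ Q := by
    rintro ⟨x, y⟩ ⟨hx, hy⟩
    simp only [mem_Icc] at hx hy
    exact ⟨⟨by dsimp only; linarith, by dsimp only; linarith⟩,
      ⟨by dsimp only; linarith, by dsimp only; linarith⟩⟩
  have hQpos : ∀ q ∈ Q, 0 < q.2 := fun q hq => lt_trans (by linarith) hq.2.1
  have hQI : ∀ q ∈ Q, q.1 ∈ Icc (x1 / 2) 2 ∧ q.2 ∈ Icc (y1 / 2) (2 * y2) := fun q hq =>
    ⟨⟨hq.1.1.le, hq.1.2.le⟩, ⟨hq.2.1.le, hq.2.2.le⟩⟩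
  have hbet := bf_bet_cases N
  have hbet0 : bet N ≠ 0 := by rcases hbet with h | h <;> rw [h] <;> norm_num
  have hbeta : |bet N| = 1 := by rcases hbet with h | h <;> rw [h] <;> norm_num
  have hU : ∀ q : ℝ × ℝ, 0 < q.2 → ((vn + bet N • W q : XS F.e F.ρ) : LV N)
      = F.v n + bet N • WW F.e F.ρ (F.dep n q.1) (F.siz n q.2) := by
    intro q hq0
    rw [Submodule.coe_add, Submodule.coe_smul, (hq q hq0).1, bfΨ_eq]
  have hmin : min (min dS dL) dR ≤ dS := (min_le_left _ _).trans (min_le_left _ _)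
  have hmin2 : min (min dS dL) dR ≤ dL := (min_le_left _ _).trans (min_le_right _ _)
  have hmin3 : min (min dS dL) dR ≤ dR := min_le_right _ _
  have hintP : interior P = Ioo x1 x2 ×ˢ Ioo y1 y2 := by
    rw [hP, interior_prod_eq, interior_Icc, interior_Icc]
  suffices hex : ∃ q ∈ interior P, ∃ φ : XS F.e F.ρ, ‖φ‖ ≤ C * (CR * F.siz n (2 * y2) ^ cc N) ∧
      gg F.e F.ρ (F.lam n) (vn + bet N • W q + φ) = 0 by
    obtain ⟨q, hqP, φ, hφ, hg⟩ := hex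
    refine ⟨q, interior_subset hqP, φ, hφ, ?_⟩
    have h1 := (gg_zero hN hN5 F.hρ F.hρ1 F.he (F.lam n) _).1 hg
    rw [Submodule.coe_add, hU q (hQpos q (hPQ (interior_subset hqP)))] at h1
    exact h1
  refine hred (XS F.e F.ρ) (fun u => JJ F.ρ (F.lam n) (u : LV N))
    (gg F.e F.ρ (F.lam n)) (Hess F.e F.ρ (F.lam n)) Q (fun q => vn + bet N • W q)
    (fun q => bet N • W' q) Z Z'
    (fun q => ![-(bet N * (F.Dn n / F.siz n q.2)), bet N * (1 / (cc N * q.2))])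
    (CR * F.siz n (2 * y2) ^ cc N) (-bet N) P (x0, y0)
    (fun u h => func_J hN hN5 F.hρ F.hρ1 F.he _ u h)
    (fun u => func_g hN hN5 F.hρ F.hρ1 F.he _ u)
    (fun u x y => func_symm hN hN5 F.hρ F.hρ1 F.he _ u x y)
    (fun u u' h h' => (hLip _ u u' h h').trans (mul_le_mul_of_nonneg_right hM1 (norm_nonneg _)))
    (isOpen_Ioo.prod isOpen_Ioo) hPQ (isCompact_Icc.prod isCompact_Icc)
    (fun q h => ((hq q (hQpos q h)).2.2.2.1.const_smul (bet N)).const_add vn)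
    ((cW.mono hQpos).const_smul (bet N))
    (fun q h a => (hq q (hQpos q h)).2.2.2.2.1 a)
    (fun a => (cZ a).mono hQpos)
    ?_ ?_ ?_ ?_ ?_ ?_ ?_ hδ ?_ (bf_bet_neg N) ?_ ?_
  · -- derivatives
    intro q h
    obtain ⟨-, -, -, -, -, h0, h1, -⟩ := hq q (hQpos q h)
    rw [bfΨ_eq] at h0
    constructor
    · change bet N • W' q (1, 0) = (-(bet N * (F.Dn n / F.siz n q.2))) • Z q 0
      rw [h0, smul_smul]
      congr 1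
      ring
    · change bet N • W' q (0, 1) = (bet N * (1 / (cc N * q.2))) • Z q 1
      rw [h1, smul_smul]
  · intro q h a
    have hy := hQpos q h
    have hs : 0 < F.siz n q.2 := (hsd _ (hQI q h).1 _ (hQI q h).2).2.2.1
    have hD := bf_Dn_pos F n
    fin_cases a
    · exact neg_ne_zero.2 (mul_ne_zero hbet0 (by positivity))
    · exact mul_ne_zero hbet0 (by positivity)
  · intro q h b
    obtain ⟨-, -, -, -, -, -, -, hb⟩ := hq q (hQpos q h)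
    have hy := hQpos q h
    have hs : 0 < F.siz n q.2 := (hsd _ (hQI q h).1 _ (hQI q h).2).2.2.1
    have hD := bf_Dn_pos F n
    obtain ⟨hb0, hb1⟩ := hb b
    rw [bfΨ_eq] at hb0
    constructor
    · change _ ≤ M * |-(bet N * (F.Dn n / F.siz n q.2))|
      rw [abs_neg, abs_mul, hbeta, one_mul, abs_of_pos (by positivity)]
      exact hb0.trans (mul_le_mul_of_nonneg_right hM2 (by positivity))
    · change _ ≤ M * |bet N * (1 / (cc N * q.2))|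
      rw [abs_mul, hbeta, one_mul, abs_of_pos (by positivity)]
      exact hb1.trans (mul_le_mul_of_nonneg_right hM2 (by positivity))
  · intro q h a
    obtain ⟨-, hz0, hz1, -⟩ := hq q (hQpos q h)
    obtain ⟨hd, hd', hs, -, hsd'⟩ := hsd _ (hQI q h).1 _ (hQI q h).2
    obtain ⟨-, hM', hX', -⟩ := hsmall _ _ hd (hd'.trans_le hmin) hs hsd'
    rw [bfΨ_eq] at hz0 hz1
    fin_cases a
    · change ‖(Z q 0 : LV N)‖ ≤ M
      rw [hz0]; exact hX'.trans hM3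
    · change ‖(Z q 1 : LV N)‖ ≤ M
      rw [hz1]; exact hM'.trans hM3
  · intro q h
    obtain ⟨hd, hd', hs, -, hsd'⟩ := hsd _ (hQI q h).1 _ (hQI q h).2
    obtain ⟨hW', -⟩ := hsmall _ _ hd (hd'.trans_le hmin) hs hsd'
    change ‖((vn + bet N • W q : XS F.e F.ρ) : LV N)‖ ≤ R₀ / 2
    rw [hU q (hQpos q h)]
    refine (norm_add_le _ _).trans ?_
    rw [norm_smul, Real.norm_eq_abs, hbeta, one_mul]
    linarith
  · intro q h c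
    obtain ⟨-, hz0, hz1, -⟩ := hq q (hQpos q h)
    obtain ⟨hd, hd', hs, hs4, hsd'⟩ := hsd _ (hQI q h).1 _ (hQI q h).2
    obtain ⟨-, -, -, hM', hX', hip⟩ := hsmall _ _ hd (hd'.trans_le hmin) hs hsd'
    rw [bfΨ_eq] at hz0 hz1
    have h0 : CS⁻¹ ≤ ‖Z q 0‖ := by
      change CS⁻¹ ≤ ‖(Z q 0 : LV N)‖; rw [hz0]; exact hX'
    have h1 : CS⁻¹ ≤ ‖Z q 1‖ := by
      change CS⁻¹ ≤ ‖(Z q 1 : LV N)‖; rw [hz1]; exact hM'
    have h2 : |⟪Z q 0, Z q 1⟫| ≤ (CS⁻¹) ^ 2 / 2 := by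
      change |⟪(Z q 0 : LV N), (Z q 1 : LV N)⟫| ≤ _
      rw [hz0, hz1, real_inner_comm]
      exact hip.trans hs4
    have h3 := bf_gram (inv_pos.2 hCS) h0 h1 h2 (c 0) (c 1)
    rw [Fin.sum_univ_two, Fin.sum_univ_two]
    refine le_trans ?_ h3
    exact mul_le_mul_of_nonneg_right (min_le_right _ _) (by positivity)
  · intro q h x c
    obtain ⟨hz, hz0, hz1, -⟩ := hq q (hQpos q h)
    obtain ⟨hd, hd', hs, hs4, hsd'⟩ := hsd _ (hQI q h).1 _ (hQI q h).2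
    rw [bfΨ_eq] at hz hz0 hz1
    have h3 := hlin _ _ (bet N) hd (hd'.trans_le hmin2) hs hsd' hbet (vn + bet N • W q) (W q)
      (Z q 0) (Z q 1) hz hz0 hz1 (hU q (hQpos q h)) x (c 0) (c 1)
    rw [Fin.sum_univ_two, Fin.sum_univ_two, Fin.sum_univ_two, ← sub_sub, ← add_assoc, ← add_assoc]
    refine le_trans ?_ h3
    exact mul_le_mul_of_nonneg_right (min_le_left _ _) (by positivity)
  · intro q h
    obtain ⟨hd, hd', hs, hs4, hsd'⟩ := hsd _ (hQI q h).1 _ (hQI q h).2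
    refine (hres _ _ (bet N) hd (hd'.trans_le hmin3) hs hsd' hbet _ (hU q (hQpos q h))).trans ?_
    have hy := hQpos q h
    rw [bf_siz_cc hN F n hy, bf_siz_cc hN F n (by linarith)]
    have := h.2.2
    have hk := bfk_pos F n
    gcongr
  · rw [hintP]
    exact ⟨⟨hx10, hx02⟩, ⟨hy10, hy02⟩⟩
  · intro q h
    have hqP : q ∈ P := (isCompact_Icc.prod isCompact_Icc).isClosed.frontier_subset h
    have hq2 : 0 < q.2 := hQpos q (hPQ hqP)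
    have hy0 : 0 < y0 := by linarith
    change -bet N * JJ F.ρ (F.lam n) ((vn + bet N • W q : XS F.e F.ρ) : LV N) +
      2 * C * (CR * F.siz n (2 * y2) ^ cc N) ^ 2
      < -bet N * JJ F.ρ (F.lam n) ((vn + bet N • W (x0, y0) : XS F.e F.ρ) : LV N)
    rw [hU q hq2, hU (x0, y0) hy0]
    have e1 := hE q.1 hqP.1 q.2 hqP.2
    have e2 := hE x0 ⟨hx10.le, hx02.le⟩ y0 ⟨hy10.le, hy02.le⟩
    have e3 := hmf q.1 q.2 h
    have hscl := bf_scl_pos F n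
    have e4 : F.scl n * (-bet N * ered N (aN N) (bN N) q.1 q.2) ≤ F.scl n * (m / 2) :=
      mul_le_mul_of_nonneg_left e3 hscl.le
    have e5 : F.scl n * m ≤ F.scl n * (-bet N * ered N (aN N) (bN N) x0 y0) :=
      mul_le_mul_of_nonneg_left hm0 hscl.le
    have e6 : F.scl n * (CE * η + m / 16) ≤ F.scl n * (m / 8) :=
      mul_le_mul_of_nonneg_left (by linarith) hscl.le
    have e7 : 0 < F.scl n * m := mul_pos hscl hm
    rw [abs_le] at e1 e2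
    rcases hbet with hb | hb
    · rw [hb] at e1 e2 e4 e5 ⊢
      simp only [one_smul] at e1 e2 ⊢
      nlinarith
    · rw [hb] at e1 e2 e4 e5 ⊢
      nlinarith

theorem bub_fin (hN : 3 ≤ N) (hN5 : N ≤ 5) : ∃ η : ℝ, 0 < η ∧ ∀ F : Fam N η,
    ∃ (n₀ : ℕ) (d μ : ℕ → ℝ) (φ : ℕ → LV N), (∀ n, n₀ ≤ n → 0 < d n ∧ 0 < μ n ∧ μ n ≤ d n ^ 2 ∧
      φ n ∈ XS F.e F.ρ ∧ Weak (ann N F.ρ) (F.v n + bet N • WW F.e F.ρ (d n) (μ n) + φ n)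
        (fun x => F.lam n * fn (F.v n + bet N • WW F.e F.ρ (d n) (μ n) + φ n) x
          + nl N (fn (F.v n + bet N • WW F.e F.ρ (d n) (μ n) + φ n) x))) ∧
      Tendsto d atTop (𝓝 0) ∧ Tendsto μ atTop (𝓝 0) ∧ Tendsto φ atTop (𝓝 0) := by
  obtain ⟨x1, x0, x2, y1, y0, y2, m, hx1, hx10, hx02, hx2, hy1, hy10, hy02, hm, hm0, hmf⟩ :=
    bf_rect hN hN5
  obtain ⟨CE, hCE, hE⟩ := energy_scaled hN hN5 (x1 := x1) (x2 := x2) (y1 := y1) (y2 := y2) hx1 hy1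
  obtain ⟨η, hη⟩ : ∃ η : ℝ, η = m / (16 * CE) := ⟨_, rfl⟩
  have hη0 : 0 < η := by rw [hη]; positivity
  refine ⟨η, hη0, fun F => ?_⟩
  have hCEη : CE * η ≤ m / 16 := by
    rw [hη]; apply le_of_eq; field_simp
  obtain ⟨CP, hCP, hpath⟩ := bf_path hN hN5 F.hρ F.hρ1
  obtain ⟨CS, dS, hCS, hdS, hdS1, hsmall⟩ := proj_small hN hN5 F.hρ F.hρ1
  obtain ⟨mL, dL, nL, hmL, hdL, hdL1, hlin⟩ := lin_bound hN hN5 F
  obtain ⟨CR, dR, hCR, hdR, hdR1, hres⟩ := residual hN hN5 F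
  obtain ⟨Bv, hBv⟩ := F.v_lim.norm.bddAbove_range
  have hBv' : ∀ n, ‖F.v n‖ ≤ Bv := fun n => hBv ⟨n, rfl⟩
  have hBv0 : 0 ≤ Bv := (norm_nonneg _).trans (hBv' 0)
  obtain ⟨ML, hML, hLip⟩ := func_lip hN hN5 F.hρ F.hρ1 F.he (2 * (Bv + CS))
  obtain ⟨δ, C, hδ, hC, hred⟩ := red_abstract (R₀ := 2 * (Bv + CS)) (M := ML + CP + CS)
    (m := min mL (CS⁻¹ / 2)) (by positivity) (by positivity) (lt_min hmL (by positivity))
  -- thresholds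
  have hκμ : 0 < ((CS⁻¹) ^ 2 / 2 / CS) ^ 4 := by positivity
  set κall : ℝ := min (min (min dS dL) dR) (((CS⁻¹) ^ 2 / 2 / CS) ^ 4) with hκall
  have hκall0 : 0 < κall := lt_min (lt_min (lt_min hdS hdL) hdR) hκμ
  set κr : ℝ := min (δ / CR) (m / (16 * C * CR ^ 2)) with hκr
  have hκr0 : 0 < κr := lt_min (by positivity) (by positivity)
  have hsiz := siz_dep hN hN5 F (x1 := x1 / 2) (x2 := 2) (y1 := y1 / 2) (y2 := 2 * y2)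
    (by positivity) (by positivity)
  have hrs := residual_scaled hN hN5 F (x1 := x1 / 2) (x2 := 2) (y1 := y1 / 2) (y2 := 2 * y2)
    (by positivity) (by positivity)
  have hx22 : (2 : ℝ) ∈ Icc (x1 / 2) 2 := ⟨by linarith, le_refl _⟩
  have hy22 : 2 * y2 ∈ Icc (y1 / 2) (2 * y2) := ⟨by linarith, le_refl _⟩
  have key : ∀ᶠ n in atTop, ∃ q : ℝ × ℝ, q ∈ Icc x1 x2 ×ˢ Icc y1 y2 ∧ ∃ φ : XS F.e F.ρ,
      ‖φ‖ ≤ C * (CR * F.siz n (2 * y2) ^ cc N) ∧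
      Weak (ann N F.ρ) (F.v n + bet N • WW F.e F.ρ (F.dep n q.1) (F.siz n q.2) + (φ : LV N))
        (fun x => F.lam n * fn (F.v n + bet N • WW F.e F.ρ (F.dep n q.1) (F.siz n q.2) + (φ : LV N)) x
          + nl N (fn (F.v n + bet N • WW F.e F.ρ (F.dep n q.1) (F.siz n q.2) + (φ : LV N)) x)) := by
    filter_upwards [hsiz κall hκall0, hrs κr hκr0, eventually_ge_atTop nL,
      hE η F hη0 (m / 16) (by positivity)] with n h1 h2 h3 h4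
    obtain ⟨h2a, h2b⟩ := h2 2 hx22 _ hy22
    refine bf_step (dS := dS) hN hN5 F n hx1 hx10 hx02 hx2 hy1 hy10 hy02 hm hm0 hmf hCEη hpath hCS
      (fun d μ hd hd' hμ hμ' => ?_)
      (fun d μ β hd hd' hμ hμ' hβ u W Z0 Z1 hW hZ0 hZ1 hu x c0 c1 =>
        hlin n d μ β h3 hd hd' hμ hμ' hβ u W Z0 Z1 hW hZ0 hZ1 hu x c0 c1) hCR
      (fun d μ β hd hd' hμ hμ' hβ u hu => hres n d μ β hd hd' hμ hμ' hβ u hu)
      ?_ hLip ?_ ?_ ?_ hred ?_ h4 ?_ ?_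
    · obtain ⟨-, -, -, -, -, -, -, -, -, -, -, -, a1, a2, a3, -, a5, a6, a7, -⟩ :=
        hsmall F.e d μ F.he hd hd' hμ hμ'
      exact ⟨a1, a2, a3, a5, a6, a7⟩
    · have := hBv' n
      linarith
    · linarith
    · linarith
    · linarith
    · intro x hx y hy
      obtain ⟨b1, b2, b3, b4, b5⟩ := h1 x hx y hy
      refine ⟨b1, b2.trans_le (min_le_left _ _), b3, ?_, b5⟩
      have b6 : F.siz n y ≤ ((CS⁻¹) ^ 2 / 2 / CS) ^ 4 := (b4.trans_le (min_le_right _ _)).le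
      have b7 : F.siz n y ^ ((1 : ℝ) / 4) ≤ (CS⁻¹) ^ 2 / 2 / CS := by
        calc F.siz n y ^ ((1 : ℝ) / 4) ≤ (((CS⁻¹) ^ 2 / 2 / CS) ^ 4) ^ ((1 : ℝ) / 4) :=
              Real.rpow_le_rpow b3.le b6 (by norm_num)
          _ = (CS⁻¹) ^ 2 / 2 / CS := by
              rw [← Real.rpow_natCast, ← Real.rpow_mul (by positivity)]
              norm_num
      calc CS * F.siz n y ^ ((1 : ℝ) / 4) ≤ CS * ((CS⁻¹) ^ 2 / 2 / CS) :=
            mul_le_mul_of_nonneg_left b7 hCS.le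
        _ = (CS⁻¹) ^ 2 / 2 := by field_simp
    · calc CR * F.siz n (2 * y2) ^ cc N ≤ CR * (δ / CR) :=
            mul_le_mul_of_nonneg_left (h2b.trans (min_le_left _ _)) hCR.le
        _ = δ := by field_simp
    · have hscl := bf_scl_pos F n
      calc 2 * C * (CR * F.siz n (2 * y2) ^ cc N) ^ 2
          = 2 * C * CR ^ 2 * (F.siz n (2 * y2) ^ cc N) ^ 2 := by ring
        _ ≤ 2 * C * CR ^ 2 * ((m / (16 * C * CR ^ 2)) * F.scl n) := by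
            refine mul_le_mul_of_nonneg_left (h2a.trans ?_) (by positivity)
            exact mul_le_mul_of_nonneg_right (min_le_right _ _) hscl.le
        _ = F.scl n * (m / 8) := by field_simp; ring
  obtain ⟨n₀, hn₀⟩ := eventually_atTop.1 key
  choose! q hq φ hφ hw using hn₀
  obtain ⟨n₁, hn₁⟩ := eventually_atTop.1 (hsiz κall hκall0)
  have hIcc : ∀ n, n₀ ≤ n → (q n).1 ∈ Icc (x1 / 2) 2 ∧ (q n).2 ∈ Icc (y1 / 2) (2 * y2) := by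
    intro n hn
    obtain ⟨⟨c1, c2⟩, ⟨c3, c4⟩⟩ := hq n hn
    exact ⟨⟨by linarith, by linarith⟩, ⟨by linarith, by linarith⟩⟩
  refine ⟨max n₀ n₁, fun n => F.dep n (q n).1, fun n => F.siz n (q n).2, fun n => (φ n : LV N),
    fun n hn => ?_, ?_, ?_, ?_⟩
  · have hn0 : n₀ ≤ n := (le_max_left _ _).trans hn
    have hn1 : n₁ ≤ n := (le_max_right _ _).trans hn
    obtain ⟨b1, -, b3, -, b5⟩ := hn₁ n hn1 _ (hIcc n hn0).1 _ (hIcc n hn0).2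
    exact ⟨b1, b3, b5, (φ n).2, hw n hn0⟩
  · rw [Metric.tendsto_nhds]
    intro κ hκ
    filter_upwards [hsiz κ hκ, eventually_ge_atTop n₀] with n h1 h2
    obtain ⟨b1, b2, -⟩ := h1 _ (hIcc n h2).1 _ (hIcc n h2).2
    rw [Real.dist_eq, sub_zero, abs_of_pos b1]
    exact b2
  · rw [Metric.tendsto_nhds]
    intro κ hκ
    filter_upwards [hsiz κ hκ, eventually_ge_atTop n₀] with n h1 h2
    obtain ⟨-, -, b3, b4, -⟩ := h1 _ (hIcc n h2).1 _ (hIcc n h2).2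
    rw [Real.dist_eq, sub_zero, abs_of_pos b3]
    exact b4
  · rw [Metric.tendsto_nhds]
    intro κ hκ
    filter_upwards [hrs (κ / (2 * C * CR)) (by positivity), eventually_ge_atTop n₀] with n h1 h2
    obtain ⟨-, b2⟩ := h1 2 hx22 _ hy22
    rw [dist_zero_right]
    have b3 : ‖(φ n : LV N)‖ ≤ C * (CR * F.siz n (2 * y2) ^ cc N) := hφ n h2
    calc ‖(φ n : LV N)‖ ≤ C * (CR * F.siz n (2 * y2) ^ cc N) := b3
      _ ≤ C * (CR * (κ / (2 * C * CR))) := by gcongr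
      _ = κ / 2 := by field_simp
      _ < κ := by linarith

end Pool.Agent.helper13.BN
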