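import Pool.Agent.helper13.BN.Stmt
import Pool.Agent.helper11.BN.Proj
import Pool.Agent.helper29.BN.ProjSmall
import Pool.Agent.helper60.BN.Param
import Pool.Agent.helper15.BN.Func
import Pool.Agent.helper90.BN.LinV
import Pool.Agent.helper38.BN.Ener
import Pool.Agent.helper8.BN.Rect
import Pool.Agent.helper88.BN.ScaledA
import Pool.Agent.helper88.BN.Scaled
import Pool.Agent.helper69.BN.HilRed
import Pool.Agent.helper68.BN.BubInt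

set_option autoImplicit false
open MeasureTheory Filter Topology Set Metric
open scoped ContDiff Gradient RealInnerProductSpace ENNReal

noncomputable section
namespace Pool.Agent.helper13.BN
variable {N : ℕ}

theorem bf_complete (e : E N) (ρ : ℝ) : CompleteSpace (XS e ρ) := by
  unfold XS
  exact (Submodule.isClosed_topologicalClosure _).completeSpace_coe

theorem bf_gram {X : Type*} [NormedAddCommGroup X] [InnerProductSpace ℝ X] {k : ℝ} (hk : 0 < k)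
    {Z0 Z1 : X} (h0 : k ≤ ‖Z0‖) (h1 : k ≤ ‖Z1‖) (h : |⟪Z0, Z1⟫| ≤ k ^ 2 / 2) (c0 c1 : ℝ) :
    k / 2 * (|c0| + |c1|) ≤ ‖c0 • Z0 + c1 • Z1‖ := by
  have hsq : ‖c0 • Z0 + c1 • Z1‖ ^ 2 = c0 ^ 2 * ‖Z0‖ ^ 2 + 2 * (c0 * c1 * ⟪Z0, Z1⟫)
      + c1 ^ 2 * ‖Z1‖ ^ 2 := by
    rw [norm_add_sq_real, norm_smul, norm_smul, real_inner_smul_left, real_inner_smul_right,
      Real.norm_eq_abs, Real.norm_eq_abs, mul_pow, mul_pow, sq_abs, sq_abs]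
    ring
  have ha : 0 ≤ |c0| := abs_nonneg _
  have hb : 0 ≤ |c1| := abs_nonneg _
  have e0 : c0 ^ 2 = |c0| ^ 2 := (sq_abs c0).symm
  have e1 : c1 ^ 2 = |c1| ^ 2 := (sq_abs c1).symm
  have hcr : -(|c0| * |c1| * (k ^ 2 / 2)) ≤ c0 * c1 * ⟪Z0, Z1⟫ := by
    have : |c0 * c1 * ⟪Z0, Z1⟫| ≤ |c0| * |c1| * (k ^ 2 / 2) := by
      rw [abs_mul, abs_mul]
      exact mul_le_mul_of_nonneg_left h (by positivity)
    have := neg_abs_le (c0 * c1 * ⟪Z0, Z1⟫)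
    linarith
  have hk0 : k ^ 2 ≤ ‖Z0‖ ^ 2 := pow_le_pow_left₀ hk.le h0 2
  have hk1 : k ^ 2 ≤ ‖Z1‖ ^ 2 := pow_le_pow_left₀ hk.le h1 2
  have hmain : (k / 2 * (|c0| + |c1|)) ^ 2 ≤ ‖c0 • Z0 + c1 • Z1‖ ^ 2 := by
    rw [hsq, e0, e1]
    have t0 : |c0| ^ 2 * k ^ 2 ≤ |c0| ^ 2 * ‖Z0‖ ^ 2 := mul_le_mul_of_nonneg_left hk0 (by positivity)
    have t1 : |c1| ^ 2 * k ^ 2 ≤ |c1| ^ 2 * ‖Z1‖ ^ 2 := mul_le_mul_of_nonneg_left hk1 (by positivity)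
    have t2 : 0 ≤ (|c0| - |c1|) ^ 2 * k ^ 2 := by positivity
    nlinarith
  exact (pow_le_pow_iff_left₀ (by positivity) (norm_nonneg _) two_ne_zero).1 hmain

theorem bf_cc_pos (hN : 3 ≤ N) : 0 < cc N := by
  have : (3 : ℝ) ≤ N := by exact_mod_cast hN
  unfold cc; linarith

/-- the size as a function of `y` -/
theorem bf_siz_deriv (hN : 3 ≤ N) {k y : ℝ} (hk : 0 < k) (hy : 0 < y) :
    HasDerivAt (fun y : ℝ => (k * y) ^ (1 / cc N)) ((1 / (cc N * y)) * (k * y) ^ (1 / cc N)) y := by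
  have hc := bf_cc_pos hN
  have hky : 0 < k * y := mul_pos hk hy
  have h1 : HasDerivAt (fun y : ℝ => k * y) k y := by
    simpa using (hasDerivAt_id y).const_mul k
  have h2 := h1.rpow_const (p := 1 / cc N) (Or.inl hky.ne')
  convert h2 using 1
  rw [Real.rpow_sub_one hky.ne']
  field_simp

/-- the parametrisation `q = (x, y) ↦ (d, μ)` -/
def bfΨ (N : ℕ) (D k : ℝ) (q : ℝ × ℝ) : ℝ × ℝ := (D * q.1, (k * q.2) ^ (1 / cc N))

def bfΨ' (N : ℕ) (D k : ℝ) (q : ℝ × ℝ) : (ℝ × ℝ) →L[ℝ] (ℝ × ℝ) :=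
  D • ((ContinuousLinearMap.fst ℝ ℝ ℝ).prod 0) +
    ((1 / (cc N * q.2)) * (k * q.2) ^ (1 / cc N)) •
      ((0 : (ℝ × ℝ) →L[ℝ] ℝ).prod (ContinuousLinearMap.snd ℝ ℝ ℝ))

theorem bfΨ_deriv (hN : 3 ≤ N) {D k : ℝ} (hk : 0 < k) {q : ℝ × ℝ} (hq : 0 < q.2) :
    HasFDerivAt (bfΨ N D k) (bfΨ' N D k q) q := by
  have h0 : HasFDerivAt (fun q : ℝ × ℝ => D * q.1) (D • ContinuousLinearMap.fst ℝ ℝ ℝ) q :=
    (hasFDerivAt_fst (𝕜 := ℝ) (p := q)).const_mul D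
  have h1 := bf_siz_deriv hN hk hq
  have h2 := h1.comp_hasFDerivAt q (hasFDerivAt_snd (𝕜 := ℝ) (p := q))
  have h3 := h0.prodMk h2
  have e3 : bfΨ' N D k q = (D • ContinuousLinearMap.fst ℝ ℝ ℝ).prod
      ((1 / (cc N * q.2) * (k * q.2) ^ (1 / cc N)) • ContinuousLinearMap.snd ℝ ℝ ℝ) := by
    ext <;> simp [bfΨ']
  rw [e3]
  exact h3

theorem bfΨ_pos {D k : ℝ} (hk : 0 < k) {q : ℝ × ℝ} (hq : 0 < q.2) : 0 < (bfΨ N D k q).2 :=
  Real.rpow_pos_of_pos (mul_pos hk hq) _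

theorem bfΨ'_cont (D k : ℝ) (hk : 0 < k) (hN : 3 ≤ N) :
    ContinuousOn (bfΨ' N D k) {q | 0 < q.2} := by
  have hc := bf_cc_pos hN
  have h1 : ContinuousOn (fun q : ℝ × ℝ => (1 / (cc N * q.2)) * (k * q.2) ^ (1 / cc N))
      {q | 0 < q.2} := by
    apply ContinuousOn.mul
    · apply ContinuousOn.div continuousOn_const (by fun_prop)
      intro q hq
      exact (mul_pos hc hq).ne'
    · apply ContinuousOn.rpow_const (by fun_prop)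
      intro q hq
      exact Or.inl (mul_pos hk hq).ne'
  exact continuousOn_const.add (h1.smul continuousOn_const)

theorem bfΨ'_fst (D k : ℝ) (q : ℝ × ℝ) : bfΨ' N D k q (1, 0) = (D, 0) := by
  simp [bfΨ']

theorem bfΨ'_snd (D k : ℝ) (q : ℝ × ℝ) :
    bfΨ' N D k q (0, 1) = (0, (1 / (cc N * q.2)) * (bfΨ N D k q).2) := by
  simp [bfΨ', bfΨ]


theorem bf_Tx_coe {e : E N} {ρ : ℝ} {g : E N → ℝ} {w : LV N} (hw : w = T (ann N ρ) g)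
    (h : w ∈ XS e ρ) : ((Tx e ρ g : XS e ρ) : LV N) = w := by
  subst hw
  unfold Tx
  rw [dif_pos h]

theorem bf_path (hN : 3 ≤ N) (hN5 : N ≤ 5) {ρ : ℝ} (hρ : 0 < ρ) (hρ1 : ρ < 1) :
    ∃ C : ℝ, 0 < C ∧ ∀ (e : E N), ‖e‖ = 1 → ∀ D k : ℝ, 0 < D → 0 < k →
      ∃ (W' : ℝ × ℝ → (ℝ × ℝ) →L[ℝ] XS e ρ) (Z' : ℝ × ℝ → Fin 2 → (ℝ × ℝ) →L[ℝ] XS e ρ)
        (W : ℝ × ℝ → XS e ρ) (Z : ℝ × ℝ → Fin 2 → XS e ρ),
        ContinuousOn W' {q | 0 < q.2} ∧ (∀ a, ContinuousOn (fun q => Z' q a) {q | 0 < q.2}) ∧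
        ∀ q : ℝ × ℝ, 0 < q.2 →
          (W q : LV N) = WW e ρ (bfΨ N D k q).1 (bfΨ N D k q).2 ∧
          (Z q 0 : LV N) = ZX e ρ (bfΨ N D k q).1 (bfΨ N D k q).2 ∧
          (Z q 1 : LV N) = ZM e ρ (bfΨ N D k q).1 (bfΨ N D k q).2 ∧
          HasFDerivAt W (W' q) q ∧ (∀ a, HasFDerivAt (fun q => Z q a) (Z' q a) q) ∧
          W' q (1, 0) = (-(D / (bfΨ N D k q).2)) • Z q 0 ∧
          W' q (0, 1) = (1 / (cc N * q.2)) • Z q 1 ∧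
          ∀ a, ‖Z' q a (1, 0)‖ ≤ C * (D / (bfΨ N D k q).2) ∧
            ‖Z' q a (0, 1)‖ ≤ C * (1 / (cc N * q.2)) := by
  have hc := bf_cc_pos hN
  obtain ⟨C, hC, h⟩ := bub_path hN hN5 hρ hρ1
  refine ⟨C, hC, fun e he D k hD hk => ?_⟩
  obtain ⟨W1, M1, X1, cW, cM, cX, hd⟩ := h e he
  set Q : Set (ℝ × ℝ) := {q | 0 < q.2} with hQ
  have hmap : MapsTo (bfΨ N D k) Q Q := fun q hq => bfΨ_pos hk hq
  have hcont : ContinuousOn (bfΨ N D k) Q := fun q hq =>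
    (bfΨ_deriv hN hk hq).continuousAt.continuousWithinAt
  have hc' := bfΨ'_cont (N := N) D k hk hN
  have hcomp : ∀ G : ℝ × ℝ → (ℝ × ℝ) →L[ℝ] XS e ρ, ContinuousOn G Q →
      ContinuousOn (fun q => (G (bfΨ N D k q)).comp (bfΨ' N D k q)) Q := fun G hG =>
    (hG.comp hcont hmap).clm_comp hc'
  refine ⟨fun q => (W1 (bfΨ N D k q)).comp (bfΨ' N D k q),
    fun q => ![(X1 (bfΨ N D k q)).comp (bfΨ' N D k q), (M1 (bfΨ N D k q)).comp (bfΨ' N D k q)],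
    fun q => Tx e ρ (fun x => nl N (bub N (bfΨ N D k q).2 (cen e (bfΨ N D k q).1) x)),
    fun q => ![Tx e ρ (fun x => dnl N (bub N (bfΨ N D k q).2
        (cen e (bfΨ N D k q).1) x) * bubXi N e (bfΨ N D k q).2 (cen e (bfΨ N D k q).1) x),
      Tx e ρ (fun x => dnl N (bub N (bfΨ N D k q).2
        (cen e (bfΨ N D k q).1) x) * bubMu N (bfΨ N D k q).2 (cen e (bfΨ N D k q).1) x)],
    hcomp W1 cW, fun a => ?_, fun q hq => ?_⟩
  · fin_cases a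
    · exact hcomp X1 cX
    · exact hcomp M1 cM
  have hq' : 0 < (bfΨ N D k q).2 := bfΨ_pos hk hq
  obtain ⟨hW, hM, hX, w0, w1, m0, m1, x0, x1⟩ := hd _ hq'
  obtain ⟨pW, pM, pX⟩ := proj_axial hN hρ hρ1 he (d := (bfΨ N D k q).1) hq'
  have tW : ((Tx e ρ (fun x => nl N (bub N (bfΨ N D k q).2 (cen e (bfΨ N D k q).1) x)) : XS e ρ)
      : LV N) = WW e ρ (bfΨ N D k q).1 (bfΨ N D k q).2 := by
    exact bf_Tx_coe rfl pW
  have tX : ((Tx e ρ (fun x => dnl N (bub N (bfΨ N D k q).2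
        (cen e (bfΨ N D k q).1) x) * bubXi N e (bfΨ N D k q).2 (cen e (bfΨ N D k q).1) x) : XS e ρ)
      : LV N) = ZX e ρ (bfΨ N D k q).1 (bfΨ N D k q).2 := by
    exact bf_Tx_coe rfl pX
  have tM : ((Tx e ρ (fun x => dnl N (bub N (bfΨ N D k q).2
        (cen e (bfΨ N D k q).1) x) * bubMu N (bfΨ N D k q).2 (cen e (bfΨ N D k q).1) x) : XS e ρ)
      : LV N) = ZM e ρ (bfΨ N D k q).1 (bfΨ N D k q).2 := by
    exact bf_Tx_coe rfl pM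
  have hΨ := bfΨ_deriv (D := D) hN hk hq
  have eD : ((D, 0) : ℝ × ℝ) = D • (1, 0) := by simp
  have eS : ((0, (1 / (cc N * q.2)) * (bfΨ N D k q).2) : ℝ × ℝ)
      = ((1 / (cc N * q.2)) * (bfΨ N D k q).2) • ((0, 1) : ℝ × ℝ) := by simp
  have hy : 0 < 1 / (cc N * q.2) := by positivity
  have bnd0 : ∀ G : (ℝ × ℝ) →L[ℝ] XS e ρ, ‖G (1, 0)‖ ≤ C / (bfΨ N D k q).2 →
      ‖(G.comp (bfΨ' N D k q)) (1, 0)‖ ≤ C * (D / (bfΨ N D k q).2) := by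
    intro G hG
    rw [ContinuousLinearMap.comp_apply, bfΨ'_fst, eD, map_smul, norm_smul, Real.norm_of_nonneg hD.le]
    calc D * ‖G (1, 0)‖ ≤ D * (C / (bfΨ N D k q).2) := mul_le_mul_of_nonneg_left hG hD.le
      _ = C * (D / (bfΨ N D k q).2) := by ring
  have bnd1 : ∀ G : (ℝ × ℝ) →L[ℝ] XS e ρ, ‖G (0, 1)‖ ≤ C / (bfΨ N D k q).2 →
      ‖(G.comp (bfΨ' N D k q)) (0, 1)‖ ≤ C * (1 / (cc N * q.2)) := by
    intro G hG
    have h0 : 0 ≤ (1 / (cc N * q.2)) * (bfΨ N D k q).2 := by positivity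
    rw [ContinuousLinearMap.comp_apply, bfΨ'_snd, eS, map_smul, norm_smul, Real.norm_of_nonneg h0]
    calc (1 / (cc N * q.2)) * (bfΨ N D k q).2 * ‖G (0, 1)‖
        ≤ (1 / (cc N * q.2)) * (bfΨ N D k q).2 * (C / (bfΨ N D k q).2) :=
          mul_le_mul_of_nonneg_left hG h0
      _ = C * (1 / (cc N * q.2)) := by
          field_simp
  refine ⟨tW, tX, tM, hW.comp q hΨ, fun a => ?_, ?_, ?_, fun a => ?_⟩
  · fin_cases a
    · exact hX.comp q hΨ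
    · exact hM.comp q hΨ
  · apply Subtype.ext
    rw [ContinuousLinearMap.comp_apply, bfΨ'_fst, eD, map_smul, Submodule.coe_smul, w0, smul_smul]
    refine Eq.trans ?_ (congrArg (fun z : LV N => (-(D / (bfΨ N D k q).2)) • z) tX).symm
    congr 1
    rw [div_eq_mul_inv]; ring
  · apply Subtype.ext
    rw [ContinuousLinearMap.comp_apply, bfΨ'_snd, eS, map_smul, Submodule.coe_smul, w1, smul_smul]
    refine Eq.trans ?_ (congrArg (fun z : LV N => (1 / (cc N * q.2)) • z) tM).symm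
    congr 1
    field_simp
  · fin_cases a
    · exact ⟨bnd0 _ x0, bnd1 _ x1⟩
    · exact ⟨bnd0 _ m0, bnd1 _ m1⟩

end Pool.Agent.helper13.BN
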